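import Pool.Agent.W769.SR.Stm
import Pool.Agent.W577.SR.Litt
import Pool.Agent.W63.SR.Pars
import Pool.Agent.W366.SR.Rog
import Pool.Agent.W753.SR.L2
import Pool.Agent.W38.SR.Fact
import Pool.Agent.W52.SR.Pow
import Pool.Agent.W797.SR.Appr
import Pool.Agent.W52.SR.GoodPoly
import Pool.Agent.W797.SR.Nz
import Pool.Agent.W797.SR.Allr
import Pool.Agent.W131.SR.Cara
import Pool.Agent.W131.SR.Upper
import Pool.Agent.W753.SR.P14
import Pool.Agent.W753.SR.Fin

set_option autoImplicit false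

/-!
# MP_140d1b: integral means of derivatives under subordination

`rp p` is the radius `r_p` of the problem: the supremum of the `ρ` in `(0, 1]` such that
`M_q(r, g') ≤ M_q(r, f')` (with `q = p`) for all `0 < r < ρ` whenever `g` is subordinate to `f`.
We prove:

* `r_p = 1/2` for all `0 < p ≤ 2`;
* `r_p` is nonincreasing in `p`;
* `r_p < 1/2` for `p ≥ 14`;
* `r_p` tends to `√2 - 1` as `p → ∞`.

The definitions (`SelfMap`, `Sub`, `Mp`, `Good`, `rp`) are in `Pool.Agent.W769.SR.Stm`.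
-/

open Filter Topology

namespace Pool.Agent.Results.MP_140d1b_an.ExactRadius

open Pool.Agent.W769.SR

/-- **The radius `r_p`**: exact value `1/2` for `0 < p ≤ 2`, monotonicity, `r_p < 1/2` for `p ≥ 14`
and the limit `√2 - 1`. -/
theorem result :
    (∀ p : ℝ, 0 < p → p ≤ 2 → rp p = 1 / 2) ∧
    (∀ p q : ℝ, 0 < p → p ≤ q → rp q ≤ rp p) ∧
    (∀ p : ℝ, 14 ≤ p → rp p < 1 / 2) ∧
    Tendsto rp atTop (𝓝 (√2 - 1)) := by
  have h2 := Pool.Agent.W63.SR.Pars.main
  have h3 := Pool.Agent.W366.SR.Rog.main Pool.Agent.W577.SR.Litt.main h2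
  have h4 := Pool.Agent.W753.SR.L2.main h2 h3
  have h9 := Pool.Agent.W797.SR.Nz.main h4 Pool.Agent.W38.SR.Fact.main Pool.Agent.W52.SR.Pow.main
    Pool.Agent.W797.SR.Appr.main
  have h12 := Pool.Agent.W131.SR.Upper.main
  exact (Pool.Agent.W753.SR.Fin.main h4 Pool.Agent.W52.SR.GoodPoly.main h9.1 h9.2
    Pool.Agent.W797.SR.Allr.main Pool.Agent.W131.SR.Cara.main h12.1 h12.2
    Pool.Agent.W753.SR.P14.main).2.2

end Pool.Agent.Results.MP_140d1b_an.ExactRadius
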